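import Mathlib

/-!
# MP_e2cee0_nt, lower bound for even quadratic twists of rank at least two: the final count

If to every large prime `l` of a class `Q` with `>= c x / log x` members in `(x/2, x]` an element
`d l` of a set `G` of integers is attached, divisible by `l` and of size `<= C l^k`, then `G` has
`>= c' D^(1/k) / log D` elements of absolute value `<= D`.
-/

namespace Pool.Agent.Helper8.TW

/-- at most `k` primes `l > x/2` divide a nonzero integer of size `<= C x^k` -/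
private theorem fibre (C : ℝ) (hC : 1 ≤ C) (k x : ℕ) (hx : C * 2 ^ (k + 1) < x)
    (F : Finset ℕ) (hF : ∀ l ∈ F, l.Prime ∧ x / 2 < l) (z : ℤ) (hz : z ≠ 0)
    (hzC : |(z : ℝ)| ≤ C * (x : ℝ) ^ k) (hdvd : ∀ l ∈ F, (l : ℤ) ∣ z) : F.card ≤ k := by
  by_contra hcon
  push Not at hcon
  have hp : (∏ l ∈ F, l) ∣ z.natAbs := by
    apply Finset.prod_primes_dvd
    · intro l hl
      exact (hF l hl).1.prime
    · intro l hl
      exact Int.natCast_dvd.mp (hdvd l hl)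
  have hpos : 0 < z.natAbs := Int.natAbs_pos.mpr hz
  have hle : (∏ l ∈ F, l) ≤ z.natAbs := Nat.le_of_dvd hpos hp
  have h2k : (2 : ℝ) ≤ 2 ^ (k + 1) := by
    calc (2 : ℝ) = 2 ^ 1 := by norm_num
      _ ≤ 2 ^ (k + 1) := pow_le_pow_right₀ (by norm_num) (by omega)
  have hx2 : (2 : ℝ) < x := by nlinarith
  have hxh : (1 : ℝ) ≤ (x : ℝ) / 2 := by linarith
  have h1 : ((x : ℝ) / 2) ^ F.card ≤ ∏ l ∈ F, (l : ℝ) := by
    rw [← Finset.prod_const]
    apply Finset.prod_le_prod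
    · intro l _
      positivity
    · intro l hl
      have := (hF l hl).2
      have h3 : x ≤ 2 * l := by omega
      have h4 : (x : ℝ) ≤ 2 * l := by exact_mod_cast h3
      linarith
  have h2 : (∏ l ∈ F, (l : ℝ)) ≤ |(z : ℝ)| := by
    have h3 : ((∏ l ∈ F, l : ℕ) : ℝ) ≤ (z.natAbs : ℝ) := by exact_mod_cast hle
    rw [Nat.cast_prod] at h3
    rwa [Nat.cast_natAbs, Int.cast_abs] at h3
  have h3 : ((x : ℝ) / 2) ^ (k + 1) ≤ C * (x : ℝ) ^ k :=
    ((pow_le_pow_right₀ hxh hcon).trans (h1.trans h2)).trans hzC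
  have hxk : (0 : ℝ) < (x : ℝ) ^ k := by positivity
  have h4 : ((x : ℝ) / 2) ^ (k + 1) = (x : ℝ) ^ k * x / 2 ^ (k + 1) := by
    rw [div_pow, pow_succ]
  rw [h4, div_le_iff₀ (by positivity)] at h3
  have h5 : (x : ℝ) ^ k * x ≤ (x : ℝ) ^ k * (C * 2 ^ (k + 1)) := by
    calc (x : ℝ) ^ k * x ≤ C * (x : ℝ) ^ k * 2 ^ (k + 1) := h3
      _ = (x : ℝ) ^ k * (C * 2 ^ (k + 1)) := by ring
  have h6 := le_of_mul_le_mul_left h5 hxk
  linarith

theorem count (Q : ℕ → Prop) [DecidablePred Q] (k : ℕ) (hk : 1 ≤ k) (C : ℝ) (l0 : ℕ) (G : Set ℤ) (d : ℕ → ℤ)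
    (hd : ∀ l : ℕ, l.Prime → Q l → l0 ≤ l →
      d l ∈ G ∧ d l ≠ 0 ∧ (l : ℤ) ∣ d l ∧ |(d l : ℝ)| ≤ C * (l : ℝ) ^ k)
    (c : ℝ) (hc : 0 < c) (x0 : ℕ)
    (hp : ∀ x : ℕ, x0 ≤ x → c * x / Real.log x
      ≤ (((Finset.Ioc (x / 2) x).filter (fun l => l.Prime ∧ Q l)).card : ℝ)) :
    ∃ c' : ℝ, 0 < c' ∧ ∃ D0 : ℝ, ∀ D : ℝ, D0 ≤ D →
      c' * D ^ (1 / (k : ℝ)) / Real.log D ≤ (Set.ncard {z : ℤ | z ∈ G ∧ |(z : ℝ)| ≤ D} : ℝ) := by
  set C' : ℝ := max C 1 with hC'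
  have hC1 : 1 ≤ C' := le_max_right _ _
  have hCpos : 0 < C' := by linarith
  have hk' : (0 : ℝ) < k := by exact_mod_cast hk
  obtain ⟨N, hN⟩ := exists_nat_gt (C' * 2 ^ (k + 1))
  set X0 : ℕ := x0 + 2 * l0 + N + 2 with hX0
  refine ⟨c / (2 * k * C' ^ (1 / (k : ℝ))), by positivity, C' * ((X0 : ℝ) + 1) ^ k, ?_⟩
  intro D hD
  have hX1 : (1 : ℝ) ≤ (X0 : ℝ) + 1 := by
    have : (0 : ℝ) ≤ X0 := by positivity
    linarith
  have hD1 : 1 ≤ D := by
    refine le_trans ?_ hD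
    have := one_le_pow₀ hX1 (n := k)
    nlinarith
  have hDC : 0 < D / C' := by positivity
  set y : ℝ := (D / C') ^ (1 / (k : ℝ)) with hy
  have hypos : 0 < y := Real.rpow_pos_of_pos hDC _
  have hyk : y ^ k = D / C' := by
    rw [hy, ← Real.rpow_natCast, ← Real.rpow_mul hDC.le]
    rw [one_div, inv_mul_cancel₀ hk'.ne', Real.rpow_one]
  have hyX : (X0 : ℝ) + 1 ≤ y := by
    by_contra hcon
    push Not at hcon
    have h1 : y ^ k < ((X0 : ℝ) + 1) ^ k := pow_lt_pow_left₀ hcon hypos.le (by omega)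
    rw [hyk, div_lt_iff₀ hCpos] at h1
    linarith
  set x : ℕ := ⌊y⌋₊ with hx
  have hxy : (x : ℝ) ≤ y := Nat.floor_le hypos.le
  have hyx : y < x + 1 := Nat.lt_floor_add_one y
  have hxX : X0 + 1 ≤ x := by
    apply Nat.le_floor
    push_cast
    exact hyX
  have hxpos : (0 : ℝ) < x := by
    have : 0 < x := by omega
    exact_mod_cast this
  have hCx : C' * (x : ℝ) ^ k ≤ D := by
    have h1 : (x : ℝ) ^ k ≤ y ^ k := pow_le_pow_left₀ hxpos.le hxy k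
    rw [hyk, le_div_iff₀ hCpos] at h1
    linarith
  set P : Finset ℕ := (Finset.Ioc (x / 2) x).filter (fun l => l.Prime ∧ Q l) with hP
  have hPmem : ∀ l ∈ P, l.Prime ∧ Q l ∧ x / 2 < l ∧ l ≤ x ∧ l0 ≤ l := by
    intro l hl
    rw [hP, Finset.mem_filter, Finset.mem_Ioc] at hl
    obtain ⟨⟨h1, h2⟩, h3, h4⟩ := hl
    exact ⟨h3, h4, h1, h2, by omega⟩
  have hPd : ∀ l ∈ P, d l ∈ G ∧ d l ≠ 0 ∧ (l : ℤ) ∣ d l ∧ |(d l : ℝ)| ≤ C' * (x : ℝ) ^ k := by
    intro l hl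
    obtain ⟨h1, h2, h3, h4, h5⟩ := hPmem l hl
    obtain ⟨g1, g2, g3, g4⟩ := hd l h1 h2 h5
    refine ⟨g1, g2, g3, g4.trans ?_⟩
    have h6 : (l : ℝ) ^ k ≤ (x : ℝ) ^ k :=
      pow_le_pow_left₀ (by positivity) (by exact_mod_cast h4) k
    exact mul_le_mul (le_max_left _ _) h6 (by positivity) hCpos.le
  have hNx : C' * 2 ^ (k + 1) < x := by
    have h1 : (N : ℝ) ≤ x := by
      have : N ≤ x := by omega
      exact_mod_cast this
    linarith
  have hcard : P.card ≤ k * (P.image d).card := by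
    apply Finset.card_le_mul_card_image
    intro z hz
    obtain ⟨l1, hl1, hz1⟩ := Finset.mem_image.mp hz
    have hz0 : z ≠ 0 := hz1 ▸ (hPd l1 hl1).2.1
    have hzC : |(z : ℝ)| ≤ C' * (x : ℝ) ^ k := hz1 ▸ (hPd l1 hl1).2.2.2
    apply fibre C' hC1 k x hNx _ _ z hz0 hzC
    · intro l hl
      have hl' := (Finset.mem_filter.mp hl)
      rw [← hl'.2]
      exact (hPd l hl'.1).2.2.1
    · intro l hl
      have hl' := (Finset.mem_filter.mp hl).1
      exact ⟨(hPmem l hl').1, (hPmem l hl').2.2.1⟩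
  have hfin : {z : ℤ | z ∈ G ∧ |(z : ℝ)| ≤ D}.Finite := by
    apply (Set.finite_Icc (-⌈D⌉) ⌈D⌉).subset
    rintro z ⟨_, hz⟩
    have h1 := abs_le.mp hz
    constructor
    · have : (-(⌈D⌉ : ℝ)) ≤ z := by
        have := Int.le_ceil D
        linarith [h1.1]
      exact_mod_cast this
    · have : (z : ℝ) ≤ ⌈D⌉ := h1.2.trans (Int.le_ceil D)
      exact_mod_cast this
  have hsub : ((P.image d : Finset ℤ) : Set ℤ) ⊆ {z : ℤ | z ∈ G ∧ |(z : ℝ)| ≤ D} := by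
    intro z hz
    rw [Finset.mem_coe] at hz
    obtain ⟨l, hl, rfl⟩ := Finset.mem_image.mp hz
    exact ⟨(hPd l hl).1, ((hPd l hl).2.2.2).trans hCx⟩
  have hnc : (P.image d).card ≤ Set.ncard {z : ℤ | z ∈ G ∧ |(z : ℝ)| ≤ D} := by
    rw [← Set.ncard_coe_finset]
    exact Set.ncard_le_ncard hsub hfin
  have hmain : c * x / Real.log x ≤ k * (Set.ncard {z : ℤ | z ∈ G ∧ |(z : ℝ)| ≤ D} : ℝ) := by
    refine (hp x (by omega)).trans ?_
    have h1 : P.card ≤ k * Set.ncard {z : ℤ | z ∈ G ∧ |(z : ℝ)| ≤ D} :=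
      hcard.trans (Nat.mul_le_mul_left k hnc)
    exact_mod_cast h1
  have hx2 : (2 : ℝ) ≤ x := by
    have : 2 ≤ x := by omega
    exact_mod_cast this
  have hlogx : 0 < Real.log x := Real.log_pos (by linarith)
  have hxD : (x : ℝ) ≤ D := by
    have h1 : (x : ℝ) ≤ (x : ℝ) ^ k := by
      calc (x : ℝ) = (x : ℝ) ^ 1 := (pow_one _).symm
        _ ≤ (x : ℝ) ^ k := pow_le_pow_right₀ (by linarith) hk
    have h2 : (x : ℝ) ^ k ≤ C' * (x : ℝ) ^ k := by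
      have : (0 : ℝ) < (x : ℝ) ^ k := by positivity
      nlinarith
    linarith
  have hlogD : Real.log x ≤ Real.log D := Real.log_le_log hxpos hxD
  have hDk : D ^ (1 / (k : ℝ)) = C' ^ (1 / (k : ℝ)) * y := by
    rw [hy, ← Real.mul_rpow hCpos.le hDC.le, mul_div_cancel₀ _ hCpos.ne']
  have hy2 : y ≤ 2 * x := by linarith
  have hCk : 0 < C' ^ (1 / (k : ℝ)) := Real.rpow_pos_of_pos hCpos _
  calc c / (2 * k * C' ^ (1 / (k : ℝ))) * D ^ (1 / (k : ℝ)) / Real.log D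
      = (c / (2 * k) * y) / Real.log D := by
        rw [hDk]; field_simp
    _ ≤ (c / (2 * k) * y) / Real.log x :=
        div_le_div_of_nonneg_left (by positivity) hlogx hlogD
    _ ≤ (c / (2 * k) * (2 * x)) / Real.log x := by
        apply div_le_div_of_nonneg_right _ hlogx.le
        exact mul_le_mul_of_nonneg_left hy2 (by positivity)
    _ = (c * x / Real.log x) / k := by field_simp
    _ ≤ (Set.ncard {z : ℤ | z ∈ G ∧ |(z : ℝ)| ≤ D} : ℝ) := by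
        rw [div_le_iff₀ hk']
        linarith

end Pool.Agent.Helper8.TW
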