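import Mathlib

/-!
# MP_e2cee0_nt, lower bound for even quadratic twists of rank at least two: the Gaussian part

For every large prime `l` with `l % 4 = 1` there are integers `u`, `v` in given residue classes
modulo `L`, in a given real direction, of size about `sqrt l`, such that `l` divides `u^2 + v^2`
exactly once.
-/

namespace Pool.Agent.Helper8.TW

/-- rounding in a residue class -/
private theorem near (L : ℕ) (hL : 1 ≤ L) (a0 : ℤ) (t : ℝ) :
    ∃ b : ℤ, |((a0 + L * b : ℤ) : ℝ) - t| ≤ L / 2 := by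
  have hL' : (0 : ℝ) < L := by exact_mod_cast hL
  refine ⟨round ((t - a0) / L), ?_⟩
  have h := abs_sub_round ((t - (a0 : ℝ)) / L)
  have e : ((a0 + L * round ((t - (a0 : ℝ)) / L) : ℤ) : ℝ) - t
      = -(L * ((t - (a0 : ℝ)) / L - round ((t - (a0 : ℝ)) / L))) := by
    push_cast
    field_simp
    ring
  rw [e, abs_neg, abs_mul, abs_of_pos hL']
  nlinarith

theorem gauss (uc vc ur vr : ℤ) (h0 : ur ≠ 0 ∨ vr ≠ 0) (L : ℕ) (hL : 1 ≤ L) (e : ℝ)
    (he : 0 < e) (_he1 : e < 1) :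
    ∃ (C R : ℝ) (l0 : ℕ), 0 < R ∧ ∀ l : ℕ, l.Prime → l % 4 = 1 → l0 ≤ l →
      ∃ u v : ℤ, (L : ℤ) ∣ u - uc ∧ (L : ℤ) ∣ v - vc ∧ (l : ℤ) ∣ u ^ 2 + v ^ 2 ∧
        ¬ ((l : ℤ) ^ 2 ∣ u ^ 2 + v ^ 2) ∧ (u : ℝ) ^ 2 + (v : ℝ) ^ 2 ≤ C * l ∧
        |(u : ℝ) - R * Real.sqrt l * ur| ≤ e * R * Real.sqrt l ∧
        |(v : ℝ) - R * Real.sqrt l * vr| ≤ e * R * Real.sqrt l := by
  have hL' : (1 : ℝ) ≤ L := by exact_mod_cast hL
  set R : ℝ := L / e + L + 1 with hR
  have hRpos : 0 < R := by positivity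
  have hReL : (L : ℝ) ≤ e * R := by
    have : e * R = L + e * (L + 1) := by
      rw [hR]; field_simp
      ring
    rw [this]
    nlinarith [mul_pos he (show (0 : ℝ) < L + 1 by positivity)]
  have hRL : (L : ℝ) < R := by
    have : 0 ≤ (L : ℝ) / e := by positivity
    rw [hR]; linarith
  set C : ℝ := 2 * R ^ 2 * ((ur : ℝ) ^ 2 + (vr : ℝ) ^ 2) + L ^ 2 with hC
  obtain ⟨l0, hl0⟩ := exists_nat_gt (max C L)
  refine ⟨C, R, l0, hRpos, ?_⟩
  intro l hlp hl4 hll
  have hlC : C < l := lt_of_le_of_lt (le_max_left _ _) (lt_of_lt_of_le hl0 (by exact_mod_cast hll))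
  have hlL : (L : ℝ) < l :=
    lt_of_le_of_lt (le_max_right _ _) (lt_of_lt_of_le hl0 (by exact_mod_cast hll))
  have hlL' : L < l := by exact_mod_cast hlL
  have hlpos : (0 : ℝ) < l := by exact_mod_cast hlp.pos
  have : Fact l.Prime := ⟨hlp⟩
  obtain ⟨x, y, hxy⟩ := Nat.Prime.sq_add_sq (p := l) (by omega)
  have hxyZ : (x : ℤ) ^ 2 + (y : ℤ) ^ 2 = l := by exact_mod_cast hxy
  have hxyR : (x : ℝ) ^ 2 + (y : ℝ) ^ 2 = l := by exact_mod_cast hxy
  have hcop : Nat.Coprime l L := by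
    rw [Nat.Prime.coprime_iff_not_dvd hlp]
    intro h
    exact absurd (Nat.le_of_dvd (by omega) h) (by omega)
  obtain ⟨m, hm⟩ : ∃ m : ℤ, (L : ℤ) ∣ m * l - 1 := by
    have h1 : IsCoprime (l : ℤ) (L : ℤ) := Nat.isCoprime_iff_coprime.mpr hcop
    obtain ⟨a, b, hab⟩ := h1
    exact ⟨a, ⟨-b, by linear_combination hab⟩⟩
  set s : ℝ := Real.sqrt l with hs
  have hspos : 0 < s := Real.sqrt_pos.mpr hlpos
  have hss : s * s = l := Real.mul_self_sqrt hlpos.le
  -- the real target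
  set t1 : ℝ := R / s * (ur * x + vr * y) with ht1
  set t2 : ℝ := R / s * (vr * x - ur * y) with ht2
  obtain ⟨b1, hb1⟩ := near L hL (m * (uc * x + vc * y)) t1
  obtain ⟨b2, hb2⟩ := near L hL (m * (vc * x - uc * y)) t2
  set a : ℤ := m * (uc * x + vc * y) + L * b1 with ha
  set c : ℤ := m * (vc * x - uc * y) + L * b2 with hc
  have hxs : |(x : ℝ)| ≤ s := by
    apply Real.abs_le_sqrt
    nlinarith [sq_nonneg (y : ℝ)]
  have hys : |(y : ℝ)| ≤ s := by
    apply Real.abs_le_sqrt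
    nlinarith [sq_nonneg (x : ℝ)]
  have hu0 : ((a * x - c * y : ℤ) : ℝ) - R * s * ur = ((a : ℝ) - t1) * x - ((c : ℝ) - t2) * y := by
    have h1 : t1 * x - t2 * y = R * s * ur := by
      have : t1 * x - t2 * y = R / s * ur * ((x : ℝ) ^ 2 + (y : ℝ) ^ 2) := by
        rw [ht1, ht2]; ring
      rw [this, hxyR, ← hss]
      field_simp
    push_cast
    rw [← h1]; ring
  have hv0 : ((a * y + c * x : ℤ) : ℝ) - R * s * vr = ((a : ℝ) - t1) * y + ((c : ℝ) - t2) * x := by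
    have h1 : t1 * y + t2 * x = R * s * vr := by
      have : t1 * y + t2 * x = R / s * vr * ((x : ℝ) ^ 2 + (y : ℝ) ^ 2) := by
        rw [ht1, ht2]; ring
      rw [this, hxyR, ← hss]
      field_simp
    push_cast
    rw [← h1]; ring
  have hprod1 : ∀ p q : ℝ, |p| ≤ L / 2 → |q| ≤ s → |p * q| ≤ L / 2 * s := by
    intro p q hp hq
    rw [abs_mul]
    exact mul_le_mul hp hq (abs_nonneg _) (by positivity)
  have hub : |((a * x - c * y : ℤ) : ℝ) - R * s * ur| ≤ L * s := by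
    rw [hu0]
    have e1 := hprod1 _ _ hb1 hxs
    have e2 := hprod1 _ _ hb2 hys
    calc |((a : ℝ) - t1) * x - ((c : ℝ) - t2) * y|
        ≤ |((a : ℝ) - t1) * x| + |((c : ℝ) - t2) * y| := abs_sub _ _
      _ ≤ L / 2 * s + L / 2 * s := add_le_add e1 e2
      _ = L * s := by ring
  have hvb : |((a * y + c * x : ℤ) : ℝ) - R * s * vr| ≤ L * s := by
    rw [hv0]
    have e1 := hprod1 _ _ hb1 hys
    have e2 := hprod1 _ _ hb2 hxs
    calc |((a : ℝ) - t1) * y + ((c : ℝ) - t2) * x|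
        ≤ |((a : ℝ) - t1) * y| + |((c : ℝ) - t2) * x| := abs_add_le _ _
      _ ≤ L / 2 * s + L / 2 * s := add_le_add e1 e2
      _ = L * s := by ring
  have hnorm : (a * x - c * y) ^ 2 + (a * y + c * x) ^ 2 = (a ^ 2 + c ^ 2) * (l : ℤ) := by
    rw [← hxyZ]; ring
  -- size of the norm of alpha
  have ht12 : t1 ^ 2 + t2 ^ 2 = R ^ 2 * ((ur : ℝ) ^ 2 + (vr : ℝ) ^ 2) := by
    have : t1 ^ 2 + t2 ^ 2
        = R ^ 2 / (s * s) * ((ur : ℝ) ^ 2 + (vr : ℝ) ^ 2) * ((x : ℝ) ^ 2 + (y : ℝ) ^ 2) := by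
      rw [ht1, ht2]; field_simp; ring
    rw [this, hxyR, hss]
    field_simp
  have hsq : ∀ p t : ℝ, |p - t| ≤ L / 2 → p ^ 2 ≤ 2 * t ^ 2 + L ^ 2 / 2 := by
    intro p t hp
    have h1 : (p - t) ^ 2 ≤ (L / 2 : ℝ) ^ 2 := by
      rw [← sq_abs (p - t)]
      exact pow_le_pow_left₀ (abs_nonneg _) hp 2
    nlinarith [sq_nonneg (p - 2 * t)]
  have hN : (a : ℝ) ^ 2 + (c : ℝ) ^ 2 ≤ C := by
    have e1 := hsq _ _ hb1
    have e2 := hsq _ _ hb2
    rw [hC]
    nlinarith [ht12]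
  have hN0 : 0 < a ^ 2 + c ^ 2 := by
    by_contra hcon
    have ha0 : a = 0 := by nlinarith [sq_nonneg a, sq_nonneg c]
    have hc0 : c = 0 := by nlinarith [sq_nonneg a, sq_nonneg c]
    have e1 : |R * s * ur| ≤ L * s := by
      have := hub
      rw [ha0, hc0] at this
      simpa using this
    have e2 : |R * s * vr| ≤ L * s := by
      have := hvb
      rw [ha0, hc0] at this
      simpa using this
    have key : ∀ w : ℤ, w ≠ 0 → |R * s * w| ≤ L * s → False := by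
      intro w hw hle
      have h1 : (1 : ℝ) ≤ |(w : ℝ)| := by
        rw [← Int.cast_abs]
        exact_mod_cast Int.one_le_abs hw
      rw [abs_mul, abs_of_pos (mul_pos hRpos hspos)] at hle
      have h2 : R * s ≤ R * s * |(w : ℝ)| := by
        nlinarith [mul_pos hRpos hspos]
      have h3 : R * s ≤ L * s := le_trans h2 hle
      have h4 : R ≤ L := le_of_mul_le_mul_right h3 hspos
      linarith
    rcases h0 with h | h
    · exact key ur h e1
    · exact key vr h e2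
  have hNl : a ^ 2 + c ^ 2 < (l : ℤ) := by
    have : ((a ^ 2 + c ^ 2 : ℤ) : ℝ) < l := by
      push_cast
      linarith
    exact_mod_cast this
  refine ⟨a * x - c * y, a * y + c * x, ?_, ?_, ?_, ?_, ?_, ?_, ?_⟩
  · have : a * x - c * y - uc = (m * l - 1) * uc + L * (b1 * x - b2 * y) := by
      rw [ha, hc, ← hxyZ]; ring
    rw [this]
    exact dvd_add (Dvd.dvd.mul_right hm _) (dvd_mul_right _ _)
  · have : a * y + c * x - vc = (m * l - 1) * vc + L * (b1 * y + b2 * x) := by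
      rw [ha, hc, ← hxyZ]; ring
    rw [this]
    exact dvd_add (Dvd.dvd.mul_right hm _) (dvd_mul_right _ _)
  · rw [hnorm]
    exact dvd_mul_left _ _
  · rw [hnorm, sq]
    intro hd
    have hl0' : (l : ℤ) ≠ 0 := by exact_mod_cast hlp.ne_zero
    have hd2 : (l : ℤ) ∣ a ^ 2 + c ^ 2 := Int.dvd_of_mul_dvd_mul_right hl0' hd
    have := Int.le_of_dvd hN0 hd2
    omega
  · have h1 : ((a * x - c * y : ℤ) : ℝ) ^ 2 + ((a * y + c * x : ℤ) : ℝ) ^ 2
        = ((a : ℝ) ^ 2 + (c : ℝ) ^ 2) * l := by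
      exact_mod_cast hnorm
    rw [h1]
    exact mul_le_mul_of_nonneg_right hN hlpos.le
  · refine hub.trans ?_
    exact mul_le_mul_of_nonneg_right hReL hspos.le
  · refine hvb.trans ?_
    exact mul_le_mul_of_nonneg_right hReL hspos.le

end Pool.Agent.Helper8.TW
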