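import Mathlib

/-!
# MP_e2cee0_nt, lower bound for even quadratic twists of rank at least two: the sign

The form `K(u,v) = b^2 (u^4+u^2v^2+v^4)^3 + a^3 u^4 v^4 (u^2+v^2)^2` is positive in a cone around
`(0,1)` and, if `4a^3+27b^2 < 0`, negative in a cone around `(1,1)`.
-/

namespace Pool.Agent.Helper8.TW

/-- A homogeneous continuous function keeps its sign in a cone. -/
theorem cone_pos (K : ℝ → ℝ → ℝ) (hc : Continuous fun p : ℝ × ℝ => K p.1 p.2) (m : ℕ)
    (hm : ∀ t x y : ℝ, K (t * x) (t * y) = t ^ m * K x y) (ur vr : ℝ) (hK : 0 < K ur vr) :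
    ∃ e : ℝ, 0 < e ∧ e < 1 ∧ ∀ t u v : ℝ, 0 < t → |u - t * ur| ≤ e * t → |v - t * vr| ≤ e * t →
      0 < K u v := by
  have hopen : IsOpen {p : ℝ × ℝ | 0 < K p.1 p.2} := isOpen_lt continuous_const hc
  obtain ⟨r, hr, hball⟩ := Metric.isOpen_iff.mp hopen (ur, vr) hK
  refine ⟨min (r / 2) (1 / 2), by positivity, by
    refine lt_of_le_of_lt (min_le_right _ _) (by norm_num), ?_⟩
  intro t u v ht hu hv
  have hmem : (u / t, v / t) ∈ Metric.ball (ur, vr) r := by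
    rw [Metric.mem_ball, Prod.dist_eq, max_lt_iff, Real.dist_eq, Real.dist_eq]
    have key : ∀ w wr : ℝ, |w - t * wr| ≤ min (r / 2) (1 / 2) * t → |w / t - wr| < r := by
      intro w wr hw
      have h1 : w / t - wr = (w - t * wr) / t := by field_simp
      rw [h1, abs_div, abs_of_pos ht, div_lt_iff₀ ht]
      have h2 : min (r / 2) (1 / 2) * t ≤ r / 2 * t :=
        mul_le_mul_of_nonneg_right (min_le_left _ _) ht.le
      nlinarith [mul_pos hr ht]
    exact ⟨key u ur hu, key v vr hv⟩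
  have h3 : 0 < K (u / t) (v / t) := hball hmem
  have h4 : K u v = t ^ m * K (u / t) (v / t) := by
    rw [← hm]
    congr 1 <;> field_simp
  rw [h4]
  positivity

/-- the factor `K` of the Mestre / Stewart-Top form -/
noncomputable def Kf (a b u v : ℝ) : ℝ :=
  b ^ 2 * (u ^ 4 + u ^ 2 * v ^ 2 + v ^ 4) ^ 3 + a ^ 3 * u ^ 4 * v ^ 4 * (u ^ 2 + v ^ 2) ^ 2

private theorem Kf_cont (a b : ℝ) : Continuous fun p : ℝ × ℝ => Kf a b p.1 p.2 := by
  unfold Kf
  fun_prop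

private theorem Kf_hom (a b t x y : ℝ) : Kf a b (t * x) (t * y) = t ^ 12 * Kf a b x y := by
  unfold Kf
  ring

/-- positive cone, around any direction where `K` is positive -/
theorem K_pos (a b : ℝ) (ur vr : ℤ) (h : 0 < Kf a b ur vr) :
    ∃ e : ℝ, 0 < e ∧ e < 1 ∧ ∀ t u v : ℝ, 0 < t → |u - t * ur| ≤ e * t → |v - t * vr| ≤ e * t →
      0 < Kf a b u v :=
  cone_pos (Kf a b) (Kf_cont a b) 12 (Kf_hom a b) ur vr h

/-- negative cone, around any direction where `K` is negative -/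
theorem K_neg (a b : ℝ) (ur vr : ℤ) (h : Kf a b ur vr < 0) :
    ∃ e : ℝ, 0 < e ∧ e < 1 ∧ ∀ t u v : ℝ, 0 < t → |u - t * ur| ≤ e * t → |v - t * vr| ≤ e * t →
      Kf a b u v < 0 := by
  obtain ⟨e, he, he1, H⟩ := cone_pos (fun x y => -Kf a b x y) ((Kf_cont a b).neg) 12
    (by intro t x y; rw [Kf_hom]; ring) ur vr (by simpa using h)
  exact ⟨e, he, he1, fun t u v ht hu hv => by have := H t u v ht hu hv; simpa using this⟩

/-- direction `(0,1)`: `K > 0` -/
theorem K_pos_dir (a b : ℝ) (hb : b ≠ 0) : 0 < Kf a b ((0 : ℤ) : ℝ) ((1 : ℤ) : ℝ) := by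
  unfold Kf
  have : 0 < b ^ 2 := by positivity
  simpa using this

/-- direction `(1,1)`: `K = 4a^3+27b^2` -/
theorem K_neg_dir (a b : ℝ) (h : 4 * a ^ 3 + 27 * b ^ 2 < 0) :
    Kf a b ((1 : ℤ) : ℝ) ((1 : ℤ) : ℝ) < 0 := by
  unfold Kf
  push_cast
  nlinarith

end Pool.Agent.Helper8.TW
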