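import Mathlib

/-!
# MP_e2cee0_nt, lower bound for even quadratic twists of rank at least two: the Eisenstein part

A prime `l` with `l % 3 = 1` is `x^2+xy+y^2`, and for every large such `l` there are integers
`u`, `v` in given residue classes modulo `L`, in a given real direction, of size about `sqrt l`,
such that `l` divides `u^2+uv+v^2` exactly once.
-/

namespace Pool.Agent.Helper8.TW

/-- a primitive cube root of unity modulo `l` -/
private theorem cube_root (l : ℕ) (hl : l.Prime) (h3 : l % 3 = 1) :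
    ∃ g : ZMod l, g ^ 2 + g + 1 = 0 := by
  have : Fact l.Prime := ⟨hl⟩
  have hcard : Fintype.card (ZMod l)ˣ = l - 1 := ZMod.card_units l
  have hdvd : 3 ∣ Fintype.card (ZMod l)ˣ := by
    rw [hcard]
    omega
  have h3p : Fact (Nat.Prime 3) := ⟨Nat.prime_three⟩
  obtain ⟨x, hx⟩ := exists_prime_orderOf_dvd_card 3 hdvd
  refine ⟨(x : ZMod l), ?_⟩
  have h1 : (x : ZMod l) ^ 3 = 1 := by
    have := pow_orderOf_eq_one x
    rw [hx] at this
    rw [← Units.val_pow_eq_pow_val, this, Units.val_one]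
  have h2 : (x : ZMod l) ≠ 1 := by
    intro h
    have : x = 1 := Units.ext h
    rw [this, orderOf_one] at hx
    omega
  have h4 : ((x : ZMod l) - 1) * ((x : ZMod l) ^ 2 + x + 1) = 0 := by
    linear_combination h1
  rcases mul_eq_zero.mp h4 with h | h
  · exact absurd (sub_eq_zero.mp h) h2
  · exact h

/-- a prime `l` with `l % 3 = 1` is `x^2+xy+y^2` -/
theorem eisen_repr (l : ℕ) (hl : l.Prime) (h3 : l % 3 = 1) :
    ∃ x y : ℤ, x ^ 2 + x * y + y ^ 2 = l := by
  have hfact : Fact l.Prime := ⟨hl⟩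
  obtain ⟨g, hg⟩ := cube_root l hl h3
  set s : ℕ := Nat.sqrt l with hs
  have hs1 : l < (s + 1) * (s + 1) := Nat.lt_succ_sqrt l
  have hs2 : s * s ≤ l := Nat.sqrt_le l
  have hs3 : s * s ≠ l := by
    intro h
    rcases Nat.le_one_iff_eq_zero_or_eq_one.mp
      (by
        by_contra hcon
        have h1 : 1 < s := by omega
        have h2 : s ∣ l := ⟨s, h.symm⟩
        rcases (Nat.dvd_prime hl).mp h2 with h4 | h4
        · omega
        · have : s * s = s * 1 := by rw [h, ← h4, mul_one]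
          have h5 := Nat.eq_of_mul_eq_mul_left (by omega) this
          omega : s ≤ 1) with h0 | h0
    · rw [h0] at h
      have := hl.pos
      omega
    · rw [h0] at h
      have := hl.one_lt
      omega
  have hl2 : l ≠ 2 := by
    intro h
    rw [h] at h3
    omega
  have hodd : l % 2 = 1 := (hl.eq_two_or_odd).resolve_left hl2
  let f : ℕ × ℕ → ZMod l := fun p => (p.1 : ZMod l) - g * p.2
  have hcard : (Finset.univ : Finset (ZMod l)).card
      < (Finset.range (s + 1) ×ˢ Finset.range (s + 1)).card := by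
    rw [Finset.card_product, Finset.card_range, Finset.card_univ, ZMod.card]
    exact hs1
  obtain ⟨p, hp, q, hq, hpq, hfpq⟩ := Finset.exists_ne_map_eq_of_card_lt_of_maps_to
    (f := f) hcard (fun _ _ => Finset.mem_univ _)
  rw [Finset.mem_product, Finset.mem_range, Finset.mem_range] at hp hq
  set X : ℤ := (p.1 : ℤ) - q.1 with hX
  set Y : ℤ := (p.2 : ℤ) - q.2 with hY
  have hXs : |X| ≤ s := by
    rw [abs_le]
    constructor <;> omega
  have hYs : |Y| ≤ s := by
    rw [abs_le]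
    constructor <;> omega
  have hXY : X ≠ 0 ∨ Y ≠ 0 := by
    by_contra hcon
    push Not at hcon
    apply hpq
    ext
    · omega
    · omega
  have hmod : (X : ZMod l) = g * Y := by
    have h1 : (p.1 : ZMod l) - g * p.2 = (q.1 : ZMod l) - g * q.2 := hfpq
    rw [hX, hY]
    push_cast
    linear_combination h1
  have hdvd : (l : ℤ) ∣ X ^ 2 + X * Y + Y ^ 2 := by
    rw [← ZMod.intCast_zmod_eq_zero_iff_dvd]
    push_cast
    rw [hmod]
    linear_combination (Y : ZMod l) ^ 2 * hg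
  obtain ⟨k, hk⟩ := hdvd
  have hlpos : (0 : ℤ) < l := by exact_mod_cast hl.pos
  have hpos : 0 < X ^ 2 + X * Y + Y ^ 2 := by
    rcases hXY with h | h
    · have : 0 < X ^ 2 := by positivity
      nlinarith [sq_nonneg (X + 2 * Y)]
    · have : 0 < Y ^ 2 := by positivity
      nlinarith [sq_nonneg (2 * X + Y)]
  have hsl : ((s : ℤ)) * s < l := by
    have : s * s < l := lt_of_le_of_ne hs2 hs3
    exact_mod_cast this
  have hlt : X ^ 2 + X * Y + Y ^ 2 < 3 * l := by
    have h1 : X ^ 2 ≤ (s : ℤ) * s := by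
      rw [← sq_abs X, sq]
      exact mul_le_mul hXs hXs (abs_nonneg _) (by positivity)
    have h2 : Y ^ 2 ≤ (s : ℤ) * s := by
      rw [← sq_abs Y, sq]
      exact mul_le_mul hYs hYs (abs_nonneg _) (by positivity)
    have h4 : X * Y ≤ (s : ℤ) * s := by
      calc X * Y ≤ |X * Y| := le_abs_self _
        _ = |X| * |Y| := abs_mul _ _
        _ ≤ (s : ℤ) * s := mul_le_mul hXs hYs (abs_nonneg _) (by positivity)
    linarith
  have hk1 : 0 < k := by
    by_contra hcon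
    push Not at hcon
    have : (l : ℤ) * k ≤ 0 := by nlinarith
    omega
  have hk2 : k < 3 := by
    by_contra hcon
    push Not at hcon
    have : (l : ℤ) * 3 ≤ l * k := by nlinarith
    omega
  have hk3 : k = 1 ∨ k = 2 := by omega
  rcases hk3 with h | h
  · exact ⟨X, Y, by rw [hk, h, mul_one]⟩
  · exfalso
    rw [h] at hk
    have hpar : X % 2 = 0 ∧ Y % 2 = 0 := by
      rcases Int.emod_two_eq_zero_or_one X with hx | hx <;>
        rcases Int.emod_two_eq_zero_or_one Y with hy | hy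
      · exact ⟨hx, hy⟩
      all_goals
        exfalso
        obtain ⟨X', hX'⟩ : ∃ X', X = 2 * X' + X % 2 := ⟨X / 2, by omega⟩
        obtain ⟨Y', hY'⟩ : ∃ Y', Y = 2 * Y' + Y % 2 := ⟨Y / 2, by omega⟩
        rw [hx] at hX'
        rw [hy] at hY'
        rw [hX', hY'] at hk
        ring_nf at hk
        omega
    obtain ⟨X', hX'⟩ : ∃ X', X = 2 * X' := ⟨X / 2, by omega⟩
    obtain ⟨Y', hY'⟩ : ∃ Y', Y = 2 * Y' := ⟨Y / 2, by omega⟩
    have h5 : 2 * (X' ^ 2 + X' * Y' + Y' ^ 2) = (l : ℤ) := by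
      rw [hX', hY'] at hk
      nlinarith
    omega

/-- rounding in a residue class -/
private theorem near' (L : ℕ) (hL : 1 ≤ L) (a0 : ℤ) (t : ℝ) :
    ∃ b : ℤ, |((a0 + L * b : ℤ) : ℝ) - t| ≤ L / 2 := by
  have hL' : (0 : ℝ) < L := by exact_mod_cast hL
  refine ⟨round ((t - a0) / L), ?_⟩
  have h := abs_sub_round ((t - (a0 : ℝ)) / L)
  have e : ((a0 + L * round ((t - (a0 : ℝ)) / L) : ℤ) : ℝ) - t
      = -(L * ((t - (a0 : ℝ)) / L - round ((t - (a0 : ℝ)) / L))) := by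
    push_cast
    field_simp
    ring
  rw [e, abs_neg, abs_mul, abs_of_pos hL']
  nlinarith

theorem eisen (uc vc ur vr : ℤ) (h0 : ur ≠ 0 ∨ vr ≠ 0) (L : ℕ) (hL : 1 ≤ L) (e : ℝ)
    (he : 0 < e) (_he1 : e < 1) :
    ∃ (C R : ℝ) (l0 : ℕ), 0 < R ∧ ∀ l : ℕ, l.Prime → l % 3 = 1 → l0 ≤ l →
      ∃ u v : ℤ, (L : ℤ) ∣ u - uc ∧ (L : ℤ) ∣ v - vc ∧ (l : ℤ) ∣ u ^ 2 + u * v + v ^ 2 ∧
        ¬ ((l : ℤ) ^ 2 ∣ u ^ 2 + u * v + v ^ 2) ∧ (u : ℝ) ^ 2 + (v : ℝ) ^ 2 ≤ C * l ∧
        |(u : ℝ) - R * Real.sqrt l * ur| ≤ e * R * Real.sqrt l ∧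
        |(v : ℝ) - R * Real.sqrt l * vr| ≤ e * R * Real.sqrt l := by
  have hL' : (1 : ℝ) ≤ L := by exact_mod_cast hL
  set R : ℝ := 3 * L / e + 3 * L + 1 with hR
  have hRpos : 0 < R := by positivity
  have hReL : 3 * (L : ℝ) ≤ e * R := by
    have : e * R = 3 * L + e * (3 * L + 1) := by
      rw [hR]; field_simp
      ring
    rw [this]
    nlinarith [mul_pos he (show (0 : ℝ) < 3 * L + 1 by positivity)]
  have hRL : 3 * (L : ℝ) < R := by
    have : 0 ≤ 3 * (L : ℝ) / e := by positivity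
    rw [hR]; linarith
  set K0 : ℝ := 4 * (|(ur : ℝ)| + |(vr : ℝ)|) with hK0
  have hK0n : 0 ≤ K0 := by positivity
  set C0 : ℝ := 3 / 2 * (4 * (R * K0) ^ 2 + L ^ 2) with hC0
  obtain ⟨l0, hl0⟩ := exists_nat_gt (max C0 L)
  refine ⟨2 * C0, R, l0, hRpos, ?_⟩
  intro l hlp hl3 hll
  have hlC : C0 < l := lt_of_le_of_lt (le_max_left _ _) (lt_of_lt_of_le hl0 (by exact_mod_cast hll))
  have hlL : (L : ℝ) < l :=
    lt_of_le_of_lt (le_max_right _ _) (lt_of_lt_of_le hl0 (by exact_mod_cast hll))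
  have hlL' : L < l := by exact_mod_cast hlL
  have hlpos : (0 : ℝ) < l := by exact_mod_cast hlp.pos
  obtain ⟨x, y, hxyZ⟩ := eisen_repr l hlp hl3
  have hxyR : (x : ℝ) ^ 2 + (x : ℝ) * y + (y : ℝ) ^ 2 = l := by exact_mod_cast hxyZ
  have hcop : Nat.Coprime l L := by
    rw [Nat.Prime.coprime_iff_not_dvd hlp]
    intro h
    exact absurd (Nat.le_of_dvd (by omega) h) (by omega)
  obtain ⟨m, hm⟩ : ∃ m : ℤ, (L : ℤ) ∣ m * l - 1 := by
    have h1 : IsCoprime (l : ℤ) (L : ℤ) := Nat.isCoprime_iff_coprime.mpr hcop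
    obtain ⟨a, b, hab⟩ := h1
    exact ⟨a, ⟨-b, by linear_combination hab⟩⟩
  set s : ℝ := Real.sqrt l with hs
  have hspos : 0 < s := Real.sqrt_pos.mpr hlpos
  have hss : s * s = l := Real.mul_self_sqrt hlpos.le
  set t1 : ℝ := R / s * (ur * (x + y) + vr * y) with ht1
  set t2 : ℝ := R / s * (vr * x - ur * y) with ht2
  obtain ⟨b1, hb1⟩ := near' L hL (m * (uc * (x + y) + vc * y)) t1
  obtain ⟨b2, hb2⟩ := near' L hL (m * (vc * x - uc * y)) t2
  set a : ℤ := m * (uc * (x + y) + vc * y) + L * b1 with ha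
  set c : ℤ := m * (vc * x - uc * y) + L * b2 with hc
  have hxs : |(x : ℝ)| ≤ 2 * s := by
    have h1 : |(x : ℝ)| ≤ Real.sqrt (4 * l) := by
      apply Real.abs_le_sqrt
      nlinarith [sq_nonneg ((x : ℝ) + 2 * y), sq_nonneg (x : ℝ)]
    have h2 : Real.sqrt (4 * l) = 2 * s := by
      rw [Real.sqrt_mul (by norm_num)]
      congr 1
      rw [show (4 : ℝ) = 2 ^ 2 by norm_num, Real.sqrt_sq (by norm_num)]
    rwa [h2] at h1
  have hys : |(y : ℝ)| ≤ 2 * s := by
    have h1 : |(y : ℝ)| ≤ Real.sqrt (4 * l) := by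
      apply Real.abs_le_sqrt
      nlinarith [sq_nonneg (2 * (x : ℝ) + y), sq_nonneg (y : ℝ)]
    have h2 : Real.sqrt (4 * l) = 2 * s := by
      rw [Real.sqrt_mul (by norm_num)]
      congr 1
      rw [show (4 : ℝ) = 2 ^ 2 by norm_num, Real.sqrt_sq (by norm_num)]
    rwa [h2] at h1
  have hu0 : ((a * x - c * y : ℤ) : ℝ) - R * s * ur = ((a : ℝ) - t1) * x - ((c : ℝ) - t2) * y := by
    have h1 : t1 * x - t2 * y = R * s * ur := by
      have : t1 * x - t2 * y = R / s * ur * ((x : ℝ) ^ 2 + (x : ℝ) * y + (y : ℝ) ^ 2) := by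
        rw [ht1, ht2]; ring
      rw [this, hxyR, ← hss]
      field_simp
    push_cast
    rw [← h1]; ring
  have hv0 : ((a * y + c * x + c * y : ℤ) : ℝ) - R * s * vr
      = ((a : ℝ) - t1) * y + ((c : ℝ) - t2) * x + ((c : ℝ) - t2) * y := by
    have h1 : t1 * y + t2 * x + t2 * y = R * s * vr := by
      have : t1 * y + t2 * x + t2 * y
          = R / s * vr * ((x : ℝ) ^ 2 + (x : ℝ) * y + (y : ℝ) ^ 2) := by
        rw [ht1, ht2]; ring
      rw [this, hxyR, ← hss]
      field_simp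
    push_cast
    rw [← h1]; ring
  have hprod1 : ∀ p q : ℝ, |p| ≤ L / 2 → |q| ≤ 2 * s → |p * q| ≤ L * s := by
    intro p q hp hq
    rw [abs_mul]
    calc |p| * |q| ≤ L / 2 * (2 * s) := mul_le_mul hp hq (abs_nonneg _) (by positivity)
      _ = L * s := by ring
  have hub : |((a * x - c * y : ℤ) : ℝ) - R * s * ur| ≤ 3 * L * s := by
    rw [hu0]
    have e1 := hprod1 _ _ hb1 hxs
    have e2 := hprod1 _ _ hb2 hys
    calc |((a : ℝ) - t1) * x - ((c : ℝ) - t2) * y|
        ≤ |((a : ℝ) - t1) * x| + |((c : ℝ) - t2) * y| := abs_sub _ _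
      _ ≤ L * s + L * s := add_le_add e1 e2
      _ ≤ 3 * L * s := by nlinarith [mul_pos (show (0 : ℝ) < L by linarith) hspos]
  have hvb : |((a * y + c * x + c * y : ℤ) : ℝ) - R * s * vr| ≤ 3 * L * s := by
    rw [hv0]
    have e1 := hprod1 _ _ hb1 hys
    have e2 := hprod1 _ _ hb2 hxs
    have e3 := hprod1 _ _ hb2 hys
    calc |((a : ℝ) - t1) * y + ((c : ℝ) - t2) * x + ((c : ℝ) - t2) * y|
        ≤ |((a : ℝ) - t1) * y + ((c : ℝ) - t2) * x| + |((c : ℝ) - t2) * y| := abs_add_le _ _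
      _ ≤ |((a : ℝ) - t1) * y| + |((c : ℝ) - t2) * x| + |((c : ℝ) - t2) * y| := by
          gcongr
          exact abs_add_le _ _
      _ ≤ L * s + L * s + L * s := add_le_add (add_le_add e1 e2) e3
      _ = 3 * L * s := by ring
  have hnorm : (a * x - c * y) ^ 2 + (a * x - c * y) * (a * y + c * x + c * y)
      + (a * y + c * x + c * y) ^ 2 = (a ^ 2 + a * c + c ^ 2) * (l : ℤ) := by
    rw [← hxyZ]; ring
  have hRs : 0 < R / s := by positivity
  have habs : ∀ w : ℝ, |w| ≤ K0 * s → |R / s * w| ≤ R * K0 := by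
    intro w hw
    rw [abs_mul, abs_of_pos hRs]
    calc R / s * |w| ≤ R / s * (K0 * s) := mul_le_mul_of_nonneg_left hw hRs.le
      _ = R * K0 := by field_simp
  have ht1b : |t1| ≤ R * K0 := by
    rw [ht1]
    apply habs
    have h1 : |(x : ℝ) + y| ≤ 4 * s := (abs_add_le _ _).trans (by linarith)
    calc |(ur : ℝ) * (x + y) + vr * y| ≤ |(ur : ℝ) * (x + y)| + |(vr : ℝ) * y| := abs_add_le _ _
      _ = |(ur : ℝ)| * |(x : ℝ) + y| + |(vr : ℝ)| * |(y : ℝ)| := by rw [abs_mul, abs_mul]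
      _ ≤ |(ur : ℝ)| * (4 * s) + |(vr : ℝ)| * (4 * s) := by
          gcongr
          linarith
      _ = K0 * s := by rw [hK0]; ring
  have ht2b : |t2| ≤ R * K0 := by
    rw [ht2]
    apply habs
    calc |(vr : ℝ) * x - ur * y| ≤ |(vr : ℝ) * x| + |(ur : ℝ) * y| := abs_sub _ _
      _ = |(vr : ℝ)| * |(x : ℝ)| + |(ur : ℝ)| * |(y : ℝ)| := by rw [abs_mul, abs_mul]
      _ ≤ |(vr : ℝ)| * (4 * s) + |(ur : ℝ)| * (4 * s) := by
          gcongr <;> linarith
      _ = K0 * s := by rw [hK0]; ring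
  have hsq : ∀ p t : ℝ, |t| ≤ R * K0 → |p - t| ≤ L / 2 → p ^ 2 ≤ 2 * (R * K0) ^ 2 + L ^ 2 / 2 := by
    intro p t ht hp
    have h1 : (p - t) ^ 2 ≤ (L / 2 : ℝ) ^ 2 := by
      rw [← sq_abs (p - t)]
      exact pow_le_pow_left₀ (abs_nonneg _) hp 2
    have h2 : t ^ 2 ≤ (R * K0) ^ 2 := by
      rw [← sq_abs t]
      exact pow_le_pow_left₀ (abs_nonneg _) ht 2
    nlinarith [sq_nonneg (p - 2 * t)]
  have hN : (a : ℝ) ^ 2 + a * c + (c : ℝ) ^ 2 ≤ C0 := by
    have e1 := hsq _ _ ht1b hb1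
    have e2 := hsq _ _ ht2b hb2
    rw [hC0]
    nlinarith [sq_nonneg ((a : ℝ) - c)]
  have hN0 : 0 < a ^ 2 + a * c + c ^ 2 := by
    by_contra hcon
    have ha0 : a = 0 := by
      by_contra h
      have : 0 < a ^ 2 := by positivity
      nlinarith [sq_nonneg (a + 2 * c)]
    have hc0 : c = 0 := by
      by_contra h
      have : 0 < c ^ 2 := by positivity
      nlinarith [sq_nonneg (2 * a + c)]
    have e1 : |R * s * ur| ≤ 3 * L * s := by
      have := hub
      rw [ha0, hc0] at this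
      simpa using this
    have e2 : |R * s * vr| ≤ 3 * L * s := by
      have := hvb
      rw [ha0, hc0] at this
      simpa using this
    have key : ∀ w : ℤ, w ≠ 0 → |R * s * w| ≤ 3 * L * s → False := by
      intro w hw hle
      have h1 : (1 : ℝ) ≤ |(w : ℝ)| := by
        rw [← Int.cast_abs]
        exact_mod_cast Int.one_le_abs hw
      rw [abs_mul, abs_of_pos (mul_pos hRpos hspos)] at hle
      have h2 : R * s ≤ R * s * |(w : ℝ)| := by
        nlinarith [mul_pos hRpos hspos]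
      have h3 : R * s ≤ 3 * L * s := le_trans h2 hle
      have h4 : R ≤ 3 * L := le_of_mul_le_mul_right h3 hspos
      linarith
    rcases h0 with h | h
    · exact key ur h e1
    · exact key vr h e2
  have hNl : a ^ 2 + a * c + c ^ 2 < (l : ℤ) := by
    have : ((a ^ 2 + a * c + c ^ 2 : ℤ) : ℝ) < l := by
      push_cast
      linarith
    exact_mod_cast this
  refine ⟨a * x - c * y, a * y + c * x + c * y, ?_, ?_, ?_, ?_, ?_, ?_, ?_⟩
  · have : a * x - c * y - uc = (m * l - 1) * uc + L * (b1 * x - b2 * y) := by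
      rw [ha, hc, ← hxyZ]; ring
    rw [this]
    exact dvd_add (Dvd.dvd.mul_right hm _) (dvd_mul_right _ _)
  · have : a * y + c * x + c * y - vc = (m * l - 1) * vc + L * (b1 * y + b2 * x + b2 * y) := by
      rw [ha, hc, ← hxyZ]; ring
    rw [this]
    exact dvd_add (Dvd.dvd.mul_right hm _) (dvd_mul_right _ _)
  · rw [hnorm]
    exact dvd_mul_left _ _
  · rw [hnorm, sq (l : ℤ)]
    intro hd
    have hl0' : (l : ℤ) ≠ 0 := by exact_mod_cast hlp.ne_zero
    have hd2 : (l : ℤ) ∣ a ^ 2 + a * c + c ^ 2 := Int.dvd_of_mul_dvd_mul_right hl0' hd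
    have := Int.le_of_dvd hN0 hd2
    omega
  · have h1 : ((a * x - c * y : ℤ) : ℝ) ^ 2
        + ((a * x - c * y : ℤ) : ℝ) * ((a * y + c * x + c * y : ℤ) : ℝ)
        + ((a * y + c * x + c * y : ℤ) : ℝ) ^ 2 = ((a : ℝ) ^ 2 + a * c + (c : ℝ) ^ 2) * l := by
      exact_mod_cast hnorm
    have h2 : ((a : ℝ) ^ 2 + a * c + (c : ℝ) ^ 2) * l ≤ C0 * l :=
      mul_le_mul_of_nonneg_right hN hlpos.le
    nlinarith [sq_nonneg (((a * x - c * y : ℤ) : ℝ) + ((a * y + c * x + c * y : ℤ) : ℝ))]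
  · refine hub.trans ?_
    exact mul_le_mul_of_nonneg_right hReL hspos.le
  · refine hvb.trans ?_
    exact mul_le_mul_of_nonneg_right hReL hspos.le

end Pool.Agent.Helper8.TW
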