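import Pool.Agent.Helper19.TW.Family

/-!
# MP_e2cee0_nt, lower bound for even quadratic twists of rank at least two: multiplicative primes

If `E : y^2 = x^3+ax+b` has multiplicative reduction at a prime `q >= 7`, `q != 11`, then the sign
`w` takes the value `1` on the Mestre / Stewart-Top form even when only one 2-torsion point is
real: modulo `q` the form is `-ab (u^2+v^2)` times a square.
-/

namespace Pool.Agent.Helper8.TW

open Pool.Agent.Helper19.TW

/-- for a prime `q >= 7`, `q != 11` there is `t` with `t^2+1` not a square and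
`t^2 != 1, -2, -1/2` -/
private theorem exists_t (q : ℕ) (hq : q.Prime) (h7 : 7 ≤ q) (h11 : q ≠ 11) :
    ∃ t : ZMod q, ¬ IsSquare (t ^ 2 + 1) ∧ t ^ 2 ≠ 1 ∧ t ^ 2 + 2 ≠ 0 ∧ 2 * t ^ 2 + 1 ≠ 0 := by
  have hcase : q = 7 ∨ q = 13 ∨ 17 ≤ q := by
    by_contra hcon
    push Not at hcon
    obtain ⟨h1, h2, h3⟩ := hcon
    interval_cases q <;> first | omega | (exact absurd hq (by norm_num))
  rcases hcase with rfl | rfl | h17
  · exact ⟨3, by decide⟩
  · exact ⟨2, by decide⟩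
  · have hfact : Fact q.Prime := ⟨hq⟩
    by_contra hcon
    push Not at hcon
    have hodd : q % 2 = 1 := (hq.eq_two_or_odd).resolve_left (by omega)
    have hnz : ∀ n : ℕ, 0 < n → n < q → (n : ZMod q) ≠ 0 := by
      intro n h0 h1 h2
      rw [ZMod.natCast_eq_zero_iff] at h2
      exact absurd (Nat.le_of_dvd h0 h2) (by omega)
    have hrun : ∀ j : ℕ, 4 ≤ j → 2 * j + 1 ≤ q → IsSquare (j : ZMod q) := by
      intro j hj
      induction j, hj using Nat.le_induction with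
      | base =>
        intro _
        exact ⟨2, by norm_num⟩
      | succ j hj ih =>
        intro hjq
        obtain ⟨t, ht⟩ := ih (by omega)
        by_contra hns
        have h1 : ¬ IsSquare (t ^ 2 + 1) := by
          rw [sq, ← ht]
          push_cast at hns
          exact hns
        have e0 : t ^ 2 = (j : ZMod q) := by rw [sq, ← ht]
        by_cases e1 : t ^ 2 = 1
        · apply hnz (j - 1) (by omega) (by omega)
          rw [Nat.cast_sub (by omega), ← e0, e1]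
          norm_num
        · by_cases e2 : t ^ 2 + 2 = 0
          · apply hnz (j + 2) (by omega) (by omega)
            push_cast
            rw [← e0, e2]
          · have e3 := hcon t h1 e1 e2
            apply hnz (2 * j + 1) (by omega) (by omega)
            push_cast
            rw [← e0, e3]
    have two0 : (2 : ZMod q) ≠ 0 := by
      have := hnz 2 (by omega) (by omega)
      exact_mod_cast this
    have s8 : IsSquare (8 : ZMod q) := by
      have := hrun 8 (by omega) (by omega)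
      exact_mod_cast this
    have s6 : IsSquare (6 : ZMod q) := by
      have := hrun 6 (by omega) (by omega)
      exact_mod_cast this
    have shalf : IsSquare ((2 : ZMod q)⁻¹ * (2 : ZMod q)⁻¹) := ⟨_, rfl⟩
    have s2 : IsSquare (2 : ZMod q) := by
      have h1 := s8.mul shalf
      have h2 : (8 : ZMod q) * ((2 : ZMod q)⁻¹ * (2 : ZMod q)⁻¹) = 2 := by
        field_simp
        norm_num
      rwa [h2] at h1
    have s3 : IsSquare (3 : ZMod q) := by
      have h1 := (s6.mul s2).mul shalf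
      have h2 : (6 : ZMod q) * 2 * ((2 : ZMod q)⁻¹ * (2 : ZMod q)⁻¹) = 3 := by
        field_simp
        norm_num
      rwa [h2] at h1
    have hall : ∀ j : ℕ, 2 * j + 1 ≤ q → IsSquare (j : ZMod q) := by
      intro j hj
      rcases Nat.lt_or_ge j 4 with h | h
      · interval_cases j
        · exact ⟨0, by norm_num⟩
        · exact ⟨1, by norm_num⟩
        · exact_mod_cast s2
        · exact_mod_cast s3
      · exact hrun j h hj
    have sm1 : IsSquare (-1 : ZMod q) := by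
      have h1 := s2.mul (hall ((q - 1) / 2) (by omega))
      have h2 : (2 : ZMod q) * (((q - 1) / 2 : ℕ) : ZMod q) = -1 := by
        have h3 : ((2 * ((q - 1) / 2) + 1 : ℕ) : ZMod q) = 0 := by
          have : 2 * ((q - 1) / 2) + 1 = q := by omega
          rw [this, ZMod.natCast_self]
        push_cast at h3
        linear_combination h3
      rwa [h2] at h1
    obtain ⟨x, hx⟩ := FiniteField.exists_nonsquare (F := ZMod q) (by
      rw [ZMod.ringChar_zmod_n]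
      omega)
    apply hx
    have hxv : ((x.val : ℕ) : ZMod q) = x := ZMod.natCast_zmod_val x
    have hxlt : x.val < q := ZMod.val_lt x
    by_cases h : 2 * x.val + 1 ≤ q
    · rw [← hxv]
      exact hall _ h
    · have h1 := sm1.mul (hall (q - x.val) (by omega))
      have h2 : (-1 : ZMod q) * ((q - x.val : ℕ) : ZMod q) = x := by
        rw [Nat.cast_sub hxlt.le, ZMod.natCast_self, hxv]
        ring
      rwa [h2] at h1

/-- multiplicative reduction at a prime `q >= 7`, `q != 11`: the sign `1` occurs -/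
theorem flip {a b : ℤ} {q M : ℕ} (hq : q.Prime) (h7 : 7 ≤ q) (h11 : q ≠ 11) (_hM : 1 ≤ M)
    (hqM : ¬ q ∣ M) (ha : ¬ (q : ℤ) ∣ a) (hb : b ≠ 0) (hD : (q : ℤ) ∣ 4 * a ^ 3 + 27 * b ^ 2)
    (hpos : 0 < 4 * a ^ 3 + 27 * b ^ 2) {w : ℤ → ℤ} (hpm : ∀ d, d ≠ 0 → w d = 1 ∨ w d = -1)
    (hwq : ∀ d e : ℤ, ¬ (q : ℤ) ∣ d → ¬ (q : ℤ) ∣ e → (8 * M : ℤ) ∣ e - 1 →
      w (d * e) = e.sign * jacobiSym e q * w d) :
    ∃ u v : ℤ, FF a b u v ≠ 0 ∧ w (FF a b u v) = 1 := by
  have hfact : Fact q.Prime := ⟨hq⟩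
  have hqI : Prime (q : ℤ) := Nat.prime_iff_prime_int.1 hq
  have ha0 : a ≠ 0 := by
    rintro rfl
    exact ha (dvd_zero _)
  have hsmall : ∀ n : ℤ, 0 < n → n < 7 → ¬ (q : ℤ) ∣ n := by
    intro n h1 h2 h3
    have := Int.le_of_dvd h1 h3
    omega
  have hqb : ¬ (q : ℤ) ∣ b := by
    intro h
    have h1 : (q : ℤ) ∣ 4 * a ^ 3 := by
      have h2 : (q : ℤ) ∣ 27 * b ^ 2 := Dvd.dvd.mul_left (dvd_pow h two_ne_zero) _
      have h3 := dvd_sub hD h2
      rwa [add_sub_cancel_right] at h3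
    rcases hqI.dvd_or_dvd h1 with h2 | h2
    · exact hsmall 4 (by norm_num) (by norm_num) h2
    · exact ha (hqI.dvd_of_dvd_pow h2)
  have hF0 : FF a b 0 1 = -(a * b) * b ^ 2 := by
    simp only [FF, KK, WW, SS]; ring
  set d0 : ℤ := FF a b 0 1 with hd0
  have hd0n : d0 ≠ 0 := by
    rw [hF0]
    exact mul_ne_zero (neg_ne_zero.2 (mul_ne_zero ha0 hb)) (pow_ne_zero 2 hb)
  have hqd0 : ¬ (q : ℤ) ∣ d0 := by
    rw [hF0]
    intro h
    rcases hqI.dvd_or_dvd h with h1 | h1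
    · rcases hqI.dvd_or_dvd ((dvd_neg).1 h1) with h2 | h2
      · exact ha h2
      · exact hqb h2
    · exact hqb (hqI.dvd_of_dvd_pow h1)
  rcases hpm d0 hd0n with h1 | hw0
  · exact ⟨0, 1, hd0n, h1⟩
  obtain ⟨t, ht1, ht2, ht3, ht4⟩ := exists_t q hq h7 h11
  -- the point
  have hbq : (b : ZMod q) ≠ 0 := by
    rw [Ne, ZMod.intCast_zmod_eq_zero_iff_dvd]
    exact hqb
  have h8q : (8 : ZMod q) ≠ 0 := by
    have : ((8 : ℤ) : ZMod q) ≠ 0 := by
      rw [Ne, ZMod.intCast_zmod_eq_zero_iff_dvd]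
      intro h
      have h2 : (q : ℤ) ∣ 2 ^ 3 := by simpa using h
      exact hsmall 2 (by norm_num) (by norm_num) (hqI.dvd_of_dvd_pow h2)
    exact_mod_cast this
  have h4q : (4 : ZMod q) ≠ 0 := by
    have : ((4 : ℤ) : ZMod q) ≠ 0 := by
      rw [Ne, ZMod.intCast_zmod_eq_zero_iff_dvd]
      exact hsmall 4 (by norm_num) (by norm_num)
    exact_mod_cast this
  have hMq : (M : ZMod q) ≠ 0 := by
    rw [Ne, ZMod.natCast_eq_zero_iff]
    exact hqM
  have hcoef : (8 : ZMod q) * M * b ^ 2 ≠ 0 := mul_ne_zero (mul_ne_zero h8q hMq) (pow_ne_zero 2 hbq)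
  set n : ℤ := ((((8 : ZMod q) * M * b ^ 2)⁻¹ * t).val : ℤ) with hn
  have hnq : (n : ZMod q) = ((8 : ZMod q) * M * b ^ 2)⁻¹ * t := by
    rw [hn, Int.cast_natCast, ZMod.natCast_zmod_val]
  set u : ℤ := 8 * M * b ^ 2 * n with hu
  have huq : (u : ZMod q) = t := by
    rw [hu]
    push_cast
    rw [hnq, mul_inv_cancel_left₀ hcoef]
  have ht0 : t ≠ 0 := by
    rintro rfl
    apply ht1
    exact ⟨1, by norm_num⟩
  have hu0 : u ≠ 0 := by
    intro h
    apply ht0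
    rw [← huq, h]
    norm_num
  set z : ℤ := 8 * M * (512 * (M : ℤ) ^ 3 * b ^ 6 * n ^ 4) with hz
  have hu4 : u ^ 4 = b ^ 2 * z := by
    rw [hu, hz]; ring
  clear_value z u
  set I : ℤ := WW u 1 ^ 3 + a ^ 3 * z * SS u 1 ^ 2 with hI
  have hKI : KK a b u 1 = b ^ 2 * I := by
    simp only [KK, hI]
    rw [hu4]; ring
  set e : ℤ := SS u 1 * I with he
  have hFe : FF a b u 1 = d0 * e := by
    rw [hF0]
    simp only [FF]
    rw [hKI, he]; ring
  -- positivity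
  have hKpos : 0 < KK a b u 1 := by
    have h1 : 4 * KK a b u 1 = b ^ 2 * ((u ^ 2 - 1) * (2 * u ^ 2 + 1) * (u ^ 2 + 2)) ^ 2
        + (4 * a ^ 3 + 27 * b ^ 2) * (u ^ 2 * (u ^ 2 + 1)) ^ 2 := by
      simp only [KK, WW, SS]; ring
    have h2 : 0 < (4 * a ^ 3 + 27 * b ^ 2) * (u ^ 2 * (u ^ 2 + 1)) ^ 2 := by
      have : 0 < u ^ 2 := by positivity
      positivity
    have h3 : 0 ≤ b ^ 2 * ((u ^ 2 - 1) * (2 * u ^ 2 + 1) * (u ^ 2 + 2)) ^ 2 := by positivity
    linarith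
  have hIpos : 0 < I := by
    rw [hKI] at hKpos
    have hb2 : 0 < b ^ 2 := by positivity
    exact (mul_pos_iff_of_pos_left hb2).1 hKpos
  have hSpos : 0 < SS u 1 := by
    simp only [SS]; positivity
  have hepos : 0 < e := mul_pos hSpos hIpos
  -- congruence modulo 8M
  have hdvd : (8 * M : ℤ) ∣ e - 1 := by
    have hu8 : u ≡ 0 [ZMOD (8 * M : ℤ)] := by
      rw [Int.modEq_zero_iff_dvd]; exact ⟨b ^ 2 * n, by rw [hu]; ring⟩
    have hz8 : z ≡ 0 [ZMOD (8 * M : ℤ)] := by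
      rw [Int.modEq_zero_iff_dvd]; exact ⟨_, hz⟩
    have : e ≡ 1 [ZMOD (8 * M : ℤ)] := by
      rw [he, hI]
      simp only [SS, WW]
      calc (u ^ 2 + 1 ^ 2) * ((u ^ 4 + u ^ 2 * 1 ^ 2 + 1 ^ 4) ^ 3 +
            a ^ 3 * z * (u ^ 2 + 1 ^ 2) ^ 2)
          ≡ (0 ^ 2 + 1 ^ 2) * ((0 ^ 4 + 0 ^ 2 * 1 ^ 2 + 1 ^ 4) ^ 3 +
            a ^ 3 * 0 * (0 ^ 2 + 1 ^ 2) ^ 2) [ZMOD (8 * M : ℤ)] := by
            gcongr
        _ = 1 := by ring
    exact (Int.modEq_iff_dvd).1 this.symm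
  -- the residue modulo q
  have hDq : (4 : ZMod q) * (a : ZMod q) ^ 3 + 27 * (b : ZMod q) ^ 2 = 0 := by
    have := (ZMod.intCast_zmod_eq_zero_iff_dvd (4 * a ^ 3 + 27 * b ^ 2) q).2 hD
    push_cast at this
    exact this
  have hzq : (b : ZMod q) ^ 2 * (z : ZMod q) = t ^ 4 := by
    have h1 : ((u ^ 4 : ℤ) : ZMod q) = ((b ^ 2 * z : ℤ) : ZMod q) := by rw [hu4]
    push_cast at h1
    rw [huq] at h1
    exact h1.symm
  have heq : (e : ZMod q) = (t ^ 2 + 1) * ((t ^ 4 + t ^ 2 + 1) ^ 3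
      + (a : ZMod q) ^ 3 * (z : ZMod q) * (t ^ 2 + 1) ^ 2) := by
    have h1 : e = (u ^ 2 + 1) * ((u ^ 4 + u ^ 2 + 1) ^ 3 + a ^ 3 * z * (u ^ 2 + 1) ^ 2) := by
      rw [he, hI]
      simp only [SS, WW]
      ring
    rw [h1]
    push_cast
    rw [huq]
  have hkey : (4 : ZMod q) * (e : ZMod q)
      = (t ^ 2 + 1) * ((t ^ 2 - 1) * (2 * t ^ 2 + 1) * (t ^ 2 + 2)) ^ 2 := by
    apply mul_left_cancel₀ (pow_ne_zero 2 hbq)
    rw [heq]
    linear_combination (t ^ 2 + 1) ^ 3 * t ^ 4 * hDq + (t ^ 2 + 1) ^ 3 * 4 * (a : ZMod q) ^ 3 * hzq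
  have hP : (t ^ 2 - 1) * (2 * t ^ 2 + 1) * (t ^ 2 + 2) ≠ 0 :=
    mul_ne_zero (mul_ne_zero (sub_ne_zero.2 ht2) ht4) ht3
  have hns : ¬ IsSquare ((e : ℤ) : ZMod q) := by
    rintro ⟨r, hr⟩
    apply ht1
    refine ⟨2 * r * ((t ^ 2 - 1) * (2 * t ^ 2 + 1) * (t ^ 2 + 2))⁻¹, ?_⟩
    have h1 : (t ^ 2 + 1) * ((t ^ 2 - 1) * (2 * t ^ 2 + 1) * (t ^ 2 + 2)) ^ 2 = (2 * r) ^ 2 := by
      rw [← hkey, hr]; ring
    calc t ^ 2 + 1 = (t ^ 2 + 1) * ((t ^ 2 - 1) * (2 * t ^ 2 + 1) * (t ^ 2 + 2)) ^ 2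
          * (((t ^ 2 - 1) * (2 * t ^ 2 + 1) * (t ^ 2 + 2))⁻¹) ^ 2 := by
            rw [mul_assoc, ← mul_pow, mul_inv_cancel₀ hP]; ring
      _ = _ := by rw [h1]; ring
  have hjac : jacobiSym e q = -1 := by
    rw [← jacobiSym.legendreSym.to_jacobiSym]
    exact (legendreSym.eq_neg_one_iff q).2 hns
  have hqe : ¬ (q : ℤ) ∣ e := by
    intro h
    apply hns
    rw [(ZMod.intCast_zmod_eq_zero_iff_dvd e q).2 h]
    exact ⟨0, by norm_num⟩
  refine ⟨u, 1, ?_, ?_⟩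
  · rw [hFe]
    exact mul_ne_zero hd0n hepos.ne'
  · rw [hFe, hwq d0 e hqd0 hqe hdvd, hjac, hw0, Int.sign_eq_one_of_pos hepos]
    norm_num

end Pool.Agent.Helper8.TW
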